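import Mathlib

/-!
# The online token colouring game (definitions)
-/

namespace Pool.Agent.H720Z.Token

variable {V : Type}

/-- The token graph of a sequence `l` of Spoiler moves (the `i`-th token sits on the vertex
`l.get i` of `G`): two different tokens are adjacent when they sit on the same vertex of `G` or on
adjacent vertices of `G`. -/
def tokenGraph (G : SimpleGraph V) (l : List V) : SimpleGraph (Fin l.length) where
  Adj i j := i ≠ j ∧ (l.get i = l.get j ∨ G.Adj (l.get i) (l.get j))
  symm := ⟨fun _ _ h => ⟨h.1.symm, h.2.imp Eq.symm G.adj_symm⟩⟩
  loopless := ⟨fun _ h => h.1 rfl⟩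

/-- A sequence of Spoiler moves is legal for `w` when after each move the token graph has
chromatic number at most `w`. -/
def Legal (G : SimpleGraph V) (w : ℕ) (l : List V) : Prop :=
  ∀ k : ℕ, (tokenGraph G (l.take k)).chromaticNumber ≤ (w : ℕ∞)

/-- A strategy of Algorithm is a map `σ` from the Spoiler moves made so far (the newest one last)
to the colour given to the newest token.  `colour σ l i` is the colour of the `i`-th token when
Spoiler plays `l`. -/
def colour (σ : List V → ℕ) (l : List V) (i : Fin l.length) : ℕ := σ (l.take (i.val + 1))

/-- The strategy `σ` keeps the colouring of the token graph proper and never uses more than `N`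
colours, whatever legal sequence Spoiler plays. -/
def Wins (G : SimpleGraph V) (w N : ℕ) (σ : List V → ℕ) : Prop :=
  ∀ l : List V, Legal G w l →
    (∀ i j : Fin l.length, (tokenGraph G l).Adj i j → colour σ l i ≠ colour σ l j) ∧
    (Finset.univ.image (colour σ l)).card ≤ N

/-- The value `f(w, G)`: the least `N` such that Algorithm has a strategy that never uses more
than `N` colours. -/
noncomputable def value (w : ℕ) (G : SimpleGraph V) : ℕ := sInf {N : ℕ | ∃ σ, Wins G w N σ}

end Pool.Agent.H720Z.Token
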