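import Pool.Agent.H720Z.Token.Defs

namespace Pool.Agent.H720Z.Token

open Finset

variable {V : Type} [DecidableEq V]

/-- colours used on the vertices of `A` -/
def C (σ : List V → ℕ) (l : List V) (A : Finset V) : Finset ℕ :=
  (Finset.univ.filter (fun i : Fin l.length => l.get i ∈ A)).image (colour σ l)

lemma mem_C {σ : List V → ℕ} {l : List V} {A : Finset V} {c : ℕ} :
    c ∈ C σ l A ↔ ∃ i : Fin l.length, l.get i ∈ A ∧ colour σ l i = c := by
  simp [C]

lemma C_union (σ : List V → ℕ) (l : List V) (A B : Finset V) :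
    C σ l (A ∪ B) = C σ l A ∪ C σ l B := by
  ext c
  simp only [mem_C, mem_union]
  constructor
  · rintro ⟨i, h | h, e⟩
    · exact Or.inl ⟨i, h, e⟩
    · exact Or.inr ⟨i, h, e⟩
  · rintro (⟨i, h, e⟩ | ⟨i, h, e⟩)
    · exact ⟨i, Or.inl h, e⟩
    · exact ⟨i, Or.inr h, e⟩

lemma C_mono_set (σ : List V → ℕ) (l : List V) {A B : Finset V} (h : A ⊆ B) :
    C σ l A ⊆ C σ l B := by
  intro c hc
  obtain ⟨i, h1, h2⟩ := mem_C.1 hc
  exact mem_C.2 ⟨i, h h1, h2⟩

lemma C_mono (σ : List V → ℕ) (l e : List V) (A : Finset V) : C σ l A ⊆ C σ (l ++ e) A := by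
  intro c hc
  obtain ⟨i, h1, h2⟩ := mem_C.1 hc
  have hi : i.val < (l ++ e).length := by
    rw [List.length_append]; have := i.2; omega
  refine mem_C.2 ⟨⟨i.val, hi⟩, ?_, ?_⟩
  · simp only [List.get_eq_getElem] at h1 ⊢
    rw [List.getElem_append_left i.2]; exact h1
  · rw [← h2]
    unfold colour
    simp only
    rw [List.take_append_of_le_length (by have := i.2; omega)]

lemma C_card_le (σ : List V → ℕ) (l : List V) (A : Finset V) :
    (C σ l A).card ≤ (Finset.univ.image (colour σ l)).card :=
  card_le_card (image_subset_image (filter_subset _ _))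

/-- each vertex used at most `t` times and the used vertices span a bipartite graph -/
def Good (G : SimpleGraph V) (t : ℕ) (l : List V) : Prop :=
  (∀ v, l.count v ≤ t) ∧ ∃ s : V → Bool, ∀ u ∈ l, ∀ v ∈ l, G.Adj u v → s u ≠ s v

lemma Good.take {G : SimpleGraph V} {t : ℕ} {l : List V} (h : Good G t l) (k : ℕ) :
    Good G t (l.take k) := by
  obtain ⟨h1, s, h2⟩ := h
  refine ⟨fun v => le_trans ((List.take_sublist k l).count_le v) (h1 v), s, ?_⟩
  intro u hu v hv
  exact h2 u (List.mem_of_mem_take hu) v (List.mem_of_mem_take hv)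

lemma count_take_lt (l : List V) (i j : Fin l.length) (hij : i < j) (h : l.get i = l.get j) :
    (l.take i.val).count (l.get i) < (l.take j.val).count (l.get i) := by
  have h1 : (l.take (i.val + 1)).count (l.get i) = (l.take i.val).count (l.get i) + 1 := by
    rw [List.take_add_one, List.count_append]
    simp [List.getElem?_eq_getElem i.2]
  have h2 : (l.take (i.val + 1)).Sublist (l.take j.val) := by
    have : l.take (i.val + 1) = (l.take j.val).take (i.val + 1) := by
      rw [List.take_take]
      congr 1
      have : i.val < j.val := hij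
      omega
    rw [this]
    exact List.take_sublist _ _
  have h3 := h2.count_le (l.get i)
  omega

lemma count_take_lt_count (l : List V) (i : Fin l.length) :
    (l.take i.val).count (l.get i) < l.count (l.get i) := by
  have h1 : (l.take (i.val + 1)).count (l.get i) = (l.take i.val).count (l.get i) + 1 := by
    rw [List.take_add_one, List.count_append]
    simp [List.getElem?_eq_getElem i.2]
  have h3 := (List.take_sublist (i.val + 1) l).count_le (l.get i)
  omega

lemma Good.chi {G : SimpleGraph V} {t w : ℕ} {l : List V} (h : Good G t l) (hw : 2 * t ≤ w) :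
    (tokenGraph G l).chromaticNumber ≤ (w : ℕ∞) := by
  obtain ⟨h1, s, h2⟩ := h
  let col : (tokenGraph G l).Coloring (Bool × Fin t) := SimpleGraph.Coloring.mk
    (fun i => (s (l.get i), ⟨(l.take i.val).count (l.get i),
      lt_of_lt_of_le (count_take_lt_count l i) (h1 _)⟩)) (by
      intro i j hij heq
      obtain ⟨hne, hor⟩ := hij
      simp only [Prod.mk.injEq, Fin.mk.injEq] at heq
      rcases hor with he | ha
      · rcases lt_or_gt_of_ne hne with hlt | hlt
        · have := count_take_lt l i j hlt he
          rw [← he] at heq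
          omega
        · have := count_take_lt l j i hlt he.symm
          rw [he] at heq
          omega
      · exact h2 _ (List.get_mem _ _) _ (List.get_mem _ _) ha heq.1)
  have hc := col.colorable
  have : Fintype.card (Bool × Fin t) = 2 * t := by simp
  rw [this] at hc
  exact (hc.mono hw).chromaticNumber_le

lemma Good.legal {G : SimpleGraph V} {t w : ℕ} {l : List V} (h : Good G t l) (hw : 2 * t ≤ w) :
    Legal G w l := fun k => (h.take k).chi hw

/-- a bipartite gadget built on top of `l` -/
structure Gadget (G : SimpleGraph V) (t : ℕ) (l e : List V) (A B : Finset V) : Prop where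
  cnt : ∀ v, (l ++ e).count v ≤ t
  mem : ∀ v, v ∈ e ↔ v ∈ A ∨ v ∈ B
  new : ∀ v ∈ e, v ∉ l
  indA : ∀ u ∈ A, ∀ v ∈ A, ¬ G.Adj u v
  indB : ∀ u ∈ B, ∀ v ∈ B, ¬ G.Adj u v
  sep : ∀ u ∈ e, ∀ v ∈ l, ¬ G.Adj u v

lemma Gadget.good {G : SimpleGraph V} {t : ℕ} {l e : List V} {A B : Finset V}
    (h : Gadget G t l e A B) (hl : Good G t l) : Good G t (l ++ e) := by
  obtain ⟨_, s, hs⟩ := hl
  refine ⟨h.cnt, fun v => if v ∈ A then true else if v ∈ B then false else s v, ?_⟩
  intro u hu v hv ha
  rw [List.mem_append] at hu hv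
  have key : ∀ x ∈ l, x ∉ A ∧ x ∉ B := fun x hx =>
    ⟨fun hA => h.new x ((h.mem x).2 (Or.inl hA)) hx, fun hB => h.new x ((h.mem x).2 (Or.inr hB)) hx⟩
  rcases hu with hu | hu <;> rcases hv with hv | hv
  · simp only [(key u hu).1, (key u hu).2, (key v hv).1, (key v hv).2, if_false]
    exact hs u hu v hv ha
  · exact absurd ha.symm (h.sep v hv u hu)
  · exact absurd ha (h.sep u hu v hv)
  · by_cases huA : u ∈ A <;> by_cases hvA : v ∈ A
    · exact absurd ha (h.indA u huA v hvA)
    · have hvB : v ∈ B := ((h.mem v).1 hv).resolve_left hvA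
      simp [huA, hvA, hvB]
    · have huB : u ∈ B := ((h.mem u).1 hu).resolve_left huA
      simp [huA, hvA, huB]
    · have hvB : v ∈ B := ((h.mem v).1 hv).resolve_left hvA
      have huB : u ∈ B := ((h.mem u).1 hu).resolve_left huA
      exact absurd ha (h.indB u huB v hvB)

lemma Gadget.symm {G : SimpleGraph V} {t : ℕ} {l e : List V} {A B : Finset V}
    (h : Gadget G t l e A B) : Gadget G t l e B A :=
  ⟨h.cnt, fun v => (h.mem v).trans or_comm, h.new, h.indB, h.indA, h.sep⟩

lemma Gadget.nil {G : SimpleGraph V} {t : ℕ} {l : List V} (hl : Good G t l) :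
    Gadget G t l [] ∅ ∅ :=
  ⟨by simpa using hl.1, by simp, by simp, by simp, by simp, by simp⟩

lemma Gadget.merge {G : SimpleGraph V} {t : ℕ} {l e e' : List V} {A B A' B' : Finset V}
    (h : Gadget G t l e A B) (h' : Gadget G t (l ++ e) e' A' B') :
    Gadget G t l (e ++ e') (A ∪ A') (B ∪ B') := by
  refine ⟨fun v => by rw [← List.append_assoc]; exact h'.cnt v, ?_, ?_, ?_, ?_, ?_⟩
  · intro v
    rw [List.mem_append, h.mem, h'.mem, mem_union, mem_union]; tauto
  · intro v hv hl
    rcases List.mem_append.1 hv with hv | hv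
    · exact h.new v hv hl
    · exact h'.new v hv (List.mem_append_left _ hl)
  · intro u hu v hv ha
    rcases mem_union.1 hu with hu | hu <;> rcases mem_union.1 hv with hv | hv
    · exact h.indA u hu v hv ha
    · exact h'.sep v ((h'.mem v).2 (Or.inl hv)) u
        (List.mem_append_right _ ((h.mem u).2 (Or.inl hu))) ha.symm
    · exact h'.sep u ((h'.mem u).2 (Or.inl hu)) v
        (List.mem_append_right _ ((h.mem v).2 (Or.inl hv))) ha
    · exact h'.indA u hu v hv ha
  · intro u hu v hv ha
    rcases mem_union.1 hu with hu | hu <;> rcases mem_union.1 hv with hv | hv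
    · exact h.indB u hu v hv ha
    · exact h'.sep v ((h'.mem v).2 (Or.inr hv)) u
        (List.mem_append_right _ ((h.mem u).2 (Or.inr hu))) ha.symm
    · exact h'.sep u ((h'.mem u).2 (Or.inr hu)) v
        (List.mem_append_right _ ((h.mem v).2 (Or.inr hv))) ha
    · exact h'.indB u hu v hv ha
  · intro u hu v hv ha
    rcases List.mem_append.1 hu with hu | hu
    · exact h.sep u hu v hv ha
    · exact h'.sep u hu v (List.mem_append_left _ hv) ha

lemma Gadget.add {G : SimpleGraph V} {t : ℕ} (ht : 1 ≤ t) {l e : List V} {A B : Finset V}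
    (h : Gadget G t l e A B) {v : V} (hv : v ∉ l ++ e)
    (hadj : ∀ u ∈ l ++ e, G.Adj v u ↔ u ∈ A) (hAB : Disjoint A B) :
    Gadget G t l (e ++ List.replicate t v) A (insert v B) := by
  have hvl : v ∉ l := fun hl => hv (List.mem_append_left _ hl)
  have hmemr : ∀ u, u ∈ List.replicate t v ↔ u = v := fun u => by
    rw [List.mem_replicate]; constructor
    · exact fun h => h.2
    · exact fun h => ⟨by omega, h⟩
  refine ⟨fun u => ?_, ?_, ?_, h.indA, ?_, ?_⟩
  · rw [← List.append_assoc, List.count_append, List.count_replicate]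
    by_cases huv : v = u
    · subst huv
      rw [List.count_eq_zero_of_not_mem hv]; simp
    · have := h.cnt u
      simp [huv]; simpa using this
  · intro u
    rw [List.mem_append, h.mem, hmemr, mem_insert]; tauto
  · intro u hu hl
    rcases List.mem_append.1 hu with hu | hu
    · exact h.new u hu hl
    · rw [hmemr] at hu; subst hu; exact hvl hl
  · have hB : ∀ u ∈ B, ¬ G.Adj v u := fun u hu ha =>
      (Finset.disjoint_left.1 hAB)
        ((hadj u (List.mem_append_right _ ((h.mem u).2 (Or.inr hu)))).1 ha) hu
    intro a ha b hb hab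
    rcases mem_insert.1 ha with ha' | ha' <;> rcases mem_insert.1 hb with hb' | hb'
    · rw [ha', hb'] at hab; exact G.irrefl hab
    · rw [ha'] at hab; exact hB b hb' hab
    · rw [hb'] at hab; exact hB a ha' hab.symm
    · exact h.indB a ha' b hb' hab
  · intro u hu x hx ha
    rcases List.mem_append.1 hu with hu | hu
    · exact h.sep u hu x hx ha
    · rw [hmemr] at hu; subst hu
      have hxA := (hadj x (List.mem_append_left _ hx)).1 ha
      exact h.new x ((h.mem x).2 (Or.inl hxA)) hx

lemma orient (a b a' b' : Finset ℕ) :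
    2 * (a.card + b.card) + ((a' ∪ b') \ (a ∩ b)).card ≤
      ((a ∪ a').card + (b ∪ b').card) + ((a ∪ b').card + (b ∪ a').card) := by
  have e1 : (a ∪ a').card = a.card + (a' \ a).card := by
    rw [← card_union_of_disjoint (disjoint_sdiff), union_sdiff_self_eq_union]
  have e2 : (b ∪ b').card = b.card + (b' \ b).card := by
    rw [← card_union_of_disjoint (disjoint_sdiff), union_sdiff_self_eq_union]
  have e3 : (a ∪ b').card = a.card + (b' \ a).card := by
    rw [← card_union_of_disjoint (disjoint_sdiff), union_sdiff_self_eq_union]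
  have e4 : (b ∪ a').card = b.card + (a' \ b).card := by
    rw [← card_union_of_disjoint (disjoint_sdiff), union_sdiff_self_eq_union]
  have e5 : (a' ∪ b') \ (a ∩ b) ⊆ ((a' \ a) ∪ (b' \ b)) ∪ ((b' \ a) ∪ (a' \ b)) := by
    intro x hx
    simp only [mem_sdiff, mem_union, mem_inter] at hx ⊢
    tauto
  have e6 := card_le_card e5
  have e7 := card_union_le ((a' \ a) ∪ (b' \ b)) ((b' \ a) ∪ (a' \ b))
  have e8 := card_union_le (a' \ a) (b' \ b)
  have e9 := card_union_le (b' \ a) (a' \ b)
  omega

/-- adding a new vertex with `t` tokens adjacent to `A` brings `t` colours outside `C A` -/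
lemma add_card {G : SimpleGraph V} {t w N : ℕ} {σ : List V → ℕ} (hσ : Wins G w N σ)
    {l : List V} {A : Finset V} {v : V} (hleg : Legal G w (l ++ List.replicate t v))
    (hadj : ∀ u ∈ A, G.Adj v u) :
    (C σ (l ++ List.replicate t v) A).card + t ≤
      (C σ (l ++ List.replicate t v) A ∪ C σ (l ++ List.replicate t v) {v}).card := by
  obtain ⟨hp, _⟩ := hσ _ hleg
  set l' := l ++ List.replicate t v with hl'
  have hd : Disjoint (C σ l' A) (C σ l' {v}) := by
    rw [Finset.disjoint_left]
    intro c hc hc'
    obtain ⟨i, hi, ei⟩ := mem_C.1 hc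
    obtain ⟨j, hj, ej⟩ := mem_C.1 hc'
    rw [mem_singleton] at hj
    have ha : G.Adj (l'.get i) (l'.get j) := by rw [hj]; exact (hadj _ hi).symm
    have hne : i ≠ j := fun h => by rw [h] at ha; exact G.irrefl ha
    exact hp i j ⟨hne, Or.inr ha⟩ (ei.trans ej.symm)
  rw [card_union_of_disjoint hd]
  have hlen : l'.length = l.length + t := by simp [hl']
  have hget : ∀ k : Fin t, l'.get ⟨l.length + k.val, by have := k.2; omega⟩ = v := by
    intro k
    simp [hl', List.getElem_append_right]
  have : t ≤ (C σ l' {v}).card := by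
    have hinj : Function.Injective
        (fun k : Fin t => colour σ l' ⟨l.length + k.val, by have := k.2; omega⟩) := by
      intro k k' hk
      by_contra hne
      refine hp _ _ ⟨?_, Or.inl ((hget k).trans (hget k').symm)⟩ hk
      intro h
      apply hne
      have := congrArg Fin.val h
      simp only at this
      exact Fin.ext (by omega)
    calc t = (Finset.univ.image
          (fun k : Fin t => colour σ l' ⟨l.length + k.val, by have := k.2; omega⟩)).card := by
          rw [card_image_of_injective _ hinj]; simp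
      _ ≤ _ := by
          apply card_le_card
          intro c hc
          obtain ⟨k, _, hk⟩ := mem_image.1 hc
          exact mem_C.2 ⟨_, by rw [hget k]; exact mem_singleton_self v, hk⟩
  omega

/-- the extension property up to `J` steps -/
def Ext (G : SimpleGraph V) (P : ℕ → V → Prop) (J : ℕ) : Prop :=
  (∀ j j' v, j ≤ j' → P j v → P j' v) ∧
  ∀ j < J, ∀ (l : List V) (X : Finset V), (∀ u ∈ l, P j u) →
    ∃ v, v ∉ l ∧ P (j + 1) v ∧ ∀ u ∈ l, (G.Adj v u ↔ u ∈ X)

/-- number of steps -/
def steps (m : ℕ) : ℕ → ℕ
  | 0 => 0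
  | k + 1 => m * (steps m k + 1)

lemma level {G : SimpleGraph V} {P : ℕ → V → Prop} {J : ℕ} (hE : Ext G P J)
    {t w N c : ℕ} (ht : 1 ≤ t) (hw : 2 * t ≤ w) {σ : List V → ℕ} (hσ : Wins G w N σ)
    (hN : N ≤ c * t) (k : ℕ) :
    ∀ (j : ℕ) (l : List V), j + steps (8 * c + 1) k ≤ J → Good G t l → (∀ u ∈ l, P j u) →
      ∃ (e : List V) (A B : Finset V), Gadget G t l e A B ∧ Disjoint A B ∧
        (∀ u ∈ l ++ e, P (j + steps (8 * c + 1) k) u) ∧
        k * t ≤ 2 * (C σ (l ++ e) A ∩ C σ (l ++ e) B).card := by
  induction k with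
  | zero =>
    intro j l _ hl hP
    exact ⟨[], ∅, ∅, Gadget.nil hl, by simp, by simpa [steps] using hP, by simp⟩
  | succ k ih =>
    intro j l hj hl hP
    set n := steps (8 * c + 1) k with hn
    have hst : steps (8 * c + 1) (k + 1) = (8 * c + 1) * (n + 1) := rfl
    have inner : ∀ i ≤ 8 * c + 1, ∃ (e : List V) (A B : Finset V), Gadget G t l e A B ∧
        Disjoint A B ∧ (∀ u ∈ l ++ e, P (j + i * (n + 1)) u) ∧
        ((k + 1) * t ≤ 2 * (C σ (l ++ e) A ∩ C σ (l ++ e) B).card ∨
          i * t ≤ 4 * ((C σ (l ++ e) A).card + (C σ (l ++ e) B).card)) := by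
      intro i
      induction i with
      | zero =>
        intro _
        exact ⟨[], ∅, ∅, Gadget.nil hl, by simp, by simpa using hP, Or.inr (by simp)⟩
      | succ i ihi =>
        intro hi
        obtain ⟨e, A, B, hg, hd, hPe, hor⟩ := ihi (by omega)
        have hmul : (i + 1) * (n + 1) ≤ (8 * c + 1) * (n + 1) := Nat.mul_le_mul_right _ hi
        have hexp : (i + 1) * (n + 1) = i * (n + 1) + n + 1 := by ring
        rcases hor with h1 | h1
        · exact ⟨e, A, B, hg, hd, fun u hu => hE.1 _ _ u (by omega) (hPe u hu), Or.inl h1⟩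
        obtain ⟨e', A', B', hg', hd', hPe', hD'⟩ :=
          ih (j + i * (n + 1)) (l ++ e) (by omega) (hg.good hl) hPe
        obtain ⟨v, hv, hPv, hadj⟩ := hE.2 (j + i * (n + 1) + n) (by omega) (l ++ e ++ e') A' hPe'
        have hg'' := hg'.add ht hv hadj hd'
        have hvA' : v ∉ A' := fun h =>
          hv (List.mem_append_right _ ((hg'.mem v).2 (Or.inl h)))
        have hd'' : Disjoint A' (insert v B') := by
          rw [disjoint_insert_right]; exact ⟨hvA', hd'⟩
        set e'' := e' ++ List.replicate t v with he''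
        have hL : l ++ e ++ e'' = (l ++ e ++ e') ++ List.replicate t v := by
          simp [he'']
        have hL2 : l ++ (e ++ e'') = l ++ e ++ e'' := by simp
        have hgood : Good G t (l ++ e ++ e'') := hg''.good (hg.good hl)
        have hadjA : ∀ u ∈ A', G.Adj v u := fun u hu =>
          (hadj u (List.mem_append_right _ ((hg'.mem u).2 (Or.inl hu)))).2 hu
        have hcard := add_card hσ (l := l ++ e ++ e') (A := A') (v := v) (t := t)
          (by rw [← hL]; exact hgood.legal hw) hadjA
        rw [← hL] at hcard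
        have hPall : ∀ u ∈ l ++ (e ++ e''), P (j + (i + 1) * (n + 1)) u := by
          intro u hu
          rw [hL2, hL] at hu
          rcases List.mem_append.1 hu with hu | hu
          · exact hE.1 _ _ u (by omega) (hPe' u hu)
          · rw [List.mem_replicate] at hu
            rw [hu.2]
            exact hE.1 _ _ v (by omega) hPv
        -- disjointness of old and new parts
        have hnew : ∀ x, (x ∈ A ∨ x ∈ B) → (x ∈ A' ∨ x ∈ insert v B') → False := fun x h1 h2 =>
          hg''.new x ((hg''.mem x).2 h2) (List.mem_append_right _ ((hg.mem x).2 h1))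
        have hdis1 : Disjoint (A ∪ A') (B ∪ insert v B') := by
          rw [Finset.disjoint_left]
          intro x hx hx'
          rcases mem_union.1 hx with hx | hx <;> rcases mem_union.1 hx' with hx' | hx'
          · exact Finset.disjoint_left.1 hd hx hx'
          · exact hnew x (Or.inl hx) (Or.inr hx')
          · exact hnew x (Or.inr hx') (Or.inl hx)
          · exact Finset.disjoint_left.1 hd'' hx hx'
        have hdis2 : Disjoint (A ∪ insert v B') (B ∪ A') := by
          rw [Finset.disjoint_left]
          intro x hx hx'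
          rcases mem_union.1 hx with hx | hx <;> rcases mem_union.1 hx' with hx' | hx'
          · exact Finset.disjoint_left.1 hd hx hx'
          · exact hnew x (Or.inl hx) (Or.inl hx')
          · exact hnew x (Or.inr hx') (Or.inr hx)
          · exact Finset.disjoint_left.1 hd'' hx' hx
        set L := l ++ e ++ e'' with hLdef
        set a := C σ L A with ha
        set b := C σ L B with hb
        set a' := C σ L A' with ha'
        set b' := C σ L (insert v B') with hb'
        have hmonoA : (C σ (l ++ e) A).card ≤ a.card := card_le_card (C_mono σ _ _ A)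
        have hmonoB : (C σ (l ++ e) B).card ≤ b.card := card_le_card (C_mono σ _ _ B)
        have hD'' : (C σ (l ++ e ++ e') A' ∩ C σ (l ++ e ++ e') B').card ≤ a'.card := by
          apply card_le_card
          refine inter_subset_left.trans ?_
          rw [ha', hL]
          exact C_mono σ _ _ A'
        have hT : (a' ∪ C σ L {v}).card ≤ (a' ∪ b').card := by
          apply card_le_card
          apply union_subset_union (Subset.refl _)
          exact C_mono_set σ L (by simp)
        have hor := orient a b a' b'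
        have hsd : (a' ∪ b').card ≤ ((a' ∪ b') \ (a ∩ b)).card + (a ∩ b).card :=
          card_le_card_sdiff_add_card
        by_cases hbig : (k + 1) * t ≤ 2 * (a ∩ b).card
        · refine ⟨e ++ e'', A ∪ A', B ∪ insert v B', hg.merge hg'', hdis1, hPall, Or.inl ?_⟩
          rw [hL2, C_union, C_union]
          refine hbig.trans (Nat.mul_le_mul_left _ (card_le_card ?_))
          exact inter_subset_inter subset_union_left subset_union_left
        · have hk1 : (k + 1) * t = k * t + t := by ring
          have hi1 : (i + 1) * t = i * t + t := by ring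
          by_cases hcmp : (a ∪ b').card + (b ∪ a').card ≤ (a ∪ a').card + (b ∪ b').card
          · refine ⟨e ++ e'', A ∪ A', B ∪ insert v B', hg.merge hg'', hdis1, hPall, Or.inr ?_⟩
            rw [hL2, C_union, C_union]
            change (i + 1) * t ≤ 4 * ((a ∪ a').card + (b ∪ b').card)
            omega
          · refine ⟨e ++ e'', A ∪ insert v B', B ∪ A', hg.merge hg''.symm, hdis2, hPall,
              Or.inr ?_⟩
            rw [hL2, C_union, C_union]
            change (i + 1) * t ≤ 4 * ((a ∪ b').card + (b ∪ a').card)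
            omega
    obtain ⟨e, A, B, hg, hd, hPe, hor⟩ := inner (8 * c + 1) le_rfl
    refine ⟨e, A, B, hg, hd, by rw [hst]; exact hPe, ?_⟩
    rcases hor with h1 | h1
    · exact h1
    · exfalso
      have hleg := (hg.good hl).legal hw
      have h2 := (hσ _ hleg).2
      have h3 := C_card_le σ (l ++ e) A
      have h4 := C_card_le σ (l ++ e) B
      have h5 : (8 * c + 1) * t = 8 * (c * t) + t := by ring
      omega

lemma lower {G : SimpleGraph V} {P : ℕ → V → Prop} {c : ℕ}
    (hE : Ext G P (steps (8 * c + 1) (2 * c + 1)))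
    {t w N : ℕ} (ht : 1 ≤ t) (hw : 2 * t ≤ w) {σ : List V → ℕ} (hσ : Wins G w N σ) :
    c * t < N := by
  by_contra hN
  have hN' : N ≤ c * t := by omega
  have hnil : Good G t [] := ⟨by simp, fun _ => true, by simp⟩
  obtain ⟨e, A, B, hg, _, _, hD⟩ := level hE ht hw hσ hN' (2 * c + 1) 0 [] (by omega) hnil
    (by simp)
  have hleg := (hg.good hnil).legal hw
  have h2 := (hσ _ hleg).2
  have h3 := C_card_le σ ([] ++ e) A
  have h4 : (C σ ([] ++ e) A ∩ C σ ([] ++ e) B).card ≤ (C σ ([] ++ e) A).card :=
    card_le_card inter_subset_left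
  have h5 : (2 * c + 1) * t = 2 * (c * t) + t := by ring
  omega

lemma exists_wins [Fintype V] (G : SimpleGraph V) (w : ℕ) :
    ∃ σ, Wins G w (Fintype.card V * w) σ := by
  refine ⟨List.length, fun l hl => ⟨?_, ?_⟩⟩
  · intro i j hij h
    apply hij.1
    unfold colour at h
    rw [List.length_take, List.length_take] at h
    have hi := i.2
    have hj := j.2
    exact Fin.ext (by omega)
  · have h1 : (Finset.univ.image (colour List.length l)).card ≤ l.length :=
      card_image_le.trans (by simp)
    refine h1.trans ?_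
    have h2 := hl l.length
    rw [List.take_length] at h2
    have h3 : (tokenGraph G l).Colorable w := SimpleGraph.chromaticNumber_le_iff_colorable.1 h2
    obtain ⟨col⟩ := h3
    have hinj : Function.Injective (fun i : Fin l.length => (l.get i, col i)) := by
      intro i j hij
      simp only [Prod.mk.injEq] at hij
      by_contra hne
      exact col.valid (show (tokenGraph G l).Adj i j from ⟨hne, Or.inl hij.1⟩) hij.2
    have := Fintype.card_le_of_injective _ hinj
    simpa using this

/-- bound on the vertices used after `j` steps -/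
def tow : ℕ → ℕ
  | 0 => 0
  | j + 1 => 2 ^ (tow j + 1)

lemma tow_lt (j : ℕ) : tow j < tow (j + 1) := by
  have : tow j + 1 < 2 ^ (tow j + 1) := Nat.lt_two_pow_self
  change tow j < 2 ^ (tow j + 1)
  omega

lemma tow_mono : Monotone tow := (strictMono_nat_of_lt_succ tow_lt).monotone

/-- a finite piece of the Rado graph -/
def rado (K : ℕ) : SimpleGraph (Fin K) where
  Adj i j := (i < j ∧ j.val.testBit i.val) ∨ (j < i ∧ i.val.testBit j.val)
  symm := ⟨fun _ _ h => h.symm⟩
  loopless := ⟨fun _ h => by rcases h with h | h <;> exact lt_irrefl _ h.1⟩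

lemma rado_ext (J : ℕ) : Ext (rado (tow J)) (fun j v => v.val < tow j) J := by
  refine ⟨fun j j' v hj hv => lt_of_lt_of_le hv (tow_mono hj), ?_⟩
  intro j hj l X hl
  let f : Fin (tow j + 1) → Bool := fun i =>
    decide (i.val = tow j ∨ ∃ u ∈ X, u.val = i.val)
  have hlt : Nat.ofBits f < tow (j + 1) := Nat.ofBits_lt_two_pow f
  have hlt' : Nat.ofBits f < tow J := lt_of_lt_of_le hlt (tow_mono hj)
  have hbit : ∀ i (hi : i < tow j + 1), (Nat.ofBits f).testBit i = f ⟨i, hi⟩ := fun i hi =>
    Nat.testBit_ofBits_lt f i hi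
  have hge : tow j < Nat.ofBits f := by
    have h1 : (Nat.ofBits f).testBit (tow j) = true := by
      rw [hbit (tow j) (by omega)]; simp [f]
    have h2 := Nat.ge_two_pow_of_testBit h1
    have h3 : tow j < 2 ^ tow j := Nat.lt_two_pow_self
    omega
  refine ⟨⟨Nat.ofBits f, hlt'⟩, ?_, hlt, ?_⟩
  · intro hv
    have := hl _ hv
    simp only at this
    omega
  · intro u hu
    have h1 : u.val < tow j := hl u hu
    have h2 : u < (⟨Nat.ofBits f, hlt'⟩ : Fin (tow J)) := by
      change u.val < Nat.ofBits f
      omega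
    constructor
    · rintro (h | h)
      · exact absurd h.1 (not_lt.2 h2.le)
      · have h3 := h.2
        simp only at h3
        rw [hbit u.val (by omega)] at h3
        simp only [f, decide_eq_true_eq] at h3
        rcases h3 with h3 | ⟨x, hx, h3⟩
        · omega
        · rw [← Fin.ext h3]; exact hx
    · intro hX
      refine Or.inr ⟨h2, ?_⟩
      simp only
      rw [hbit u.val (by omega)]
      simp only [f, decide_eq_true_eq]
      exact Or.inr ⟨u, hX, rfl⟩

theorem main (c : ℝ) : ∃ (n : ℕ) (G : SimpleGraph (Fin n)), ∀ w : ℕ, 2 ≤ w →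
    c * (w : ℝ) < (value w G : ℝ) := by
  obtain ⟨k, hk⟩ := exists_nat_ge c
  refine ⟨_, rado (tow (steps (8 * (3 * k) + 1) (2 * (3 * k) + 1))), fun w hw => ?_⟩
  set G := rado (tow (steps (8 * (3 * k) + 1) (2 * (3 * k) + 1))) with hG
  have hne : {N : ℕ | ∃ σ, Wins G w N σ}.Nonempty := ⟨_, exists_wins G w⟩
  obtain ⟨σ, hσ⟩ := Nat.sInf_mem hne
  have h := lower (rado_ext _) (t := w / 2) (by omega) (by omega) hσ
  have h2 : k * w ≤ 3 * k * (w / 2) := by
    have : w ≤ 3 * (w / 2) := by omega
    calc k * w ≤ k * (3 * (w / 2)) := Nat.mul_le_mul_left _ this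
      _ = 3 * k * (w / 2) := by ring
  have h3 : k * w < value w G := lt_of_le_of_lt h2 h
  have h4 : ((k * w : ℕ) : ℝ) < (value w G : ℝ) := by exact_mod_cast h3
  push_cast at h4
  have h5 : c * (w : ℝ) ≤ (k : ℝ) * w := mul_le_mul_of_nonneg_right hk (Nat.cast_nonneg _)
  linarith

end Pool.Agent.H720Z.Token
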